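import Pool.Agent.SGE.Stmts

set_option autoImplicit false

noncomputable section

namespace Pool.Agent.SGE.H56

open Pool.Agent.SGE

theorem segp {p q z : ℝ × ℝ} (h : z ∈ segment ℝ p q) (hpq : p.2 < q.2) :
    p.2 ≤ z.2 ∧ z.2 ≤ q.2 ∧ (z.1 - p.1) * (q.2 - p.2) = (q.1 - p.1) * (z.2 - p.2) ∧
    (z.1 - p.1) * (z.1 - q.1) ≤ 0 := by
  obtain ⟨s, t, hs, ht, hst, rfl⟩ := h
  have hs' : s = 1 - t := by linarith
  subst hs'
  simp only [Prod.fst_add, Prod.snd_add, Prod.smul_fst, Prod.smul_snd, smul_eq_mul]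
  refine ⟨by nlinarith, by nlinarith, by ring, ?_⟩
  have h1 : ((1 - t) * p.1 + t * q.1 - p.1) * ((1 - t) * p.1 + t * q.1 - q.1) =
      -((1 - t) * t * (p.1 - q.1) ^ 2) := by ring
  rw [h1]
  have h2 := mul_nonneg (mul_nonneg hs ht) (sq_nonneg (p.1 - q.1))
  linarith

/-- numbers: slow growth of the abscissa -/
theorem slow {W K xa xb z1 z2 ha hb H : ℝ} (hW : 0 ≤ W) (hK : 8 * (W + 1) ≤ K)
    (hx : |xb - xa| ≤ W) (ha0 : 0 < ha) (haz : ha ≤ z2) (hzH : z2 ≤ H) (hHb : K * H ≤ hb)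
    (he : (z1 - xa) * (hb - ha) = (xb - xa) * (z2 - ha)) : |z1 - xa| < 1 := by
  by_contra hcon
  have h1 : 1 ≤ |z1 - xa| := not_lt.1 hcon
  have hH0 : 0 < H := lt_of_lt_of_le ha0 (haz.trans hzH)
  have hKH : H ≤ K * H := by nlinarith
  have h2 : 0 ≤ hb - ha := by linarith
  have h3 : |z1 - xa| * (hb - ha) = |xb - xa| * (z2 - ha) := by
    rw [← abs_of_nonneg h2, ← abs_mul, he, abs_mul, abs_of_nonneg (by linarith : 0 ≤ z2 - ha)]
  have h4 : hb - ha ≤ |z1 - xa| * (hb - ha) := by nlinarith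
  have h5 : |xb - xa| * (z2 - ha) ≤ W * H := by
    apply mul_le_mul hx (by linarith) (by linarith) hW
  have h6 : K * H - H ≤ W * H := by linarith
  nlinarith

section

variable {V : Type} {K W : ℕ} {x y : V → ℕ}

theorem kpos (hK : 8 * (W + 1) ≤ K) : 0 < (K : ℝ) := by
  have : 0 < K := by lia
  exact_mod_cast this

theorem kW (hK : 8 * (W + 1) ≤ K) : 8 * ((W : ℝ) + 1) ≤ K := by
  exact_mod_cast hK

theorem kone (hK : 8 * (W + 1) ≤ K) : 1 ≤ (K : ℝ) := by
  have : 1 ≤ K := by lia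
  exact_mod_cast this

theorem hpos (hK : 8 * (W + 1) ≤ K) (n : ℕ) : 0 < (K : ℝ) ^ n := pow_pos (kpos hK) n

theorem hstep (hK : 8 * (W + 1) ≤ K) {m n : ℕ} (h : m < n) : (K : ℝ) * (K : ℝ) ^ m ≤ (K : ℝ) ^ n := by
  rw [← pow_succ']
  exact pow_le_pow_right₀ (kone hK) h

theorem hlt (hK : 8 * (W + 1) ≤ K) {m n : ℕ} (h : m < n) : (K : ℝ) ^ m < (K : ℝ) ^ n := by
  have h1 : 1 < K := by lia
  have h2 : (1 : ℝ) < K := by exact_mod_cast h1
  exact pow_lt_pow_right₀ h2 h

theorem xd (hW : ∀ v, x v ≤ W) (u v : V) : |(x u : ℝ) - x v| ≤ W := by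
  have h1 : (x u : ℝ) ≤ W := by exact_mod_cast hW u
  have h2 : (x v : ℝ) ≤ W := by exact_mod_cast hW v
  have h3 : (0 : ℝ) ≤ x u := Nat.cast_nonneg _
  have h4 : (0 : ℝ) ≤ x v := Nat.cast_nonneg _
  rw [abs_le]
  constructor <;> linarith

theorem xne (hx : Function.Injective x) {u v : V} (h : u ≠ v) : 1 ≤ |(x u : ℝ) - x v| := by
  have h1 : x u ≠ x v := fun h' => h (hx h')
  rcases lt_or_gt_of_ne h1 with h2 | h2
  · have h3 : (x u : ℝ) + 1 ≤ x v := by exact_mod_cast h2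
    rw [abs_sub_comm, abs_of_nonneg] <;> linarith
  · have h3 : (x v : ℝ) + 1 ≤ x u := by exact_mod_cast h2
    rw [abs_of_nonneg] <;> linarith

theorem seg' (hK : 8 * (W + 1) ≤ K) {a b : V} {z : ℝ × ℝ} (hab : y a < y b)
    (h : z ∈ segment ℝ (pt K x y a) (pt K x y b)) :
    (K : ℝ) ^ y a ≤ z.2 ∧ z.2 ≤ (K : ℝ) ^ y b ∧
      (z.1 - x a) * ((K : ℝ) ^ y b - (K : ℝ) ^ y a) = ((x b : ℝ) - x a) * (z.2 - (K : ℝ) ^ y a) ∧
      (z.1 - x a) * (z.1 - x b) ≤ 0 :=
  segp h (hlt hK hab)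

/-- different tops -/
theorem pairs (G : SimpleGraph V) (hx : Function.Injective x) (hy : Function.Injective y)
    (hW : ∀ v, x v ≤ W) (hK : 8 * (W + 1) ≤ K) (hN : NC G x y) {a b c d : V}
    (hab : G.Adj a b) (hcd : G.Adj c d) (h1 : y a < y b) (h2 : y c < y d) (h3 : y b < y d)
    {z : ℝ × ℝ} (hz1 : z ∈ segment ℝ (pt K x y a) (pt K x y b))
    (hz2 : z ∈ segment ℝ (pt K x y c) (pt K x y d)) :
    (z = pt K x y a ∨ z = pt K x y b) ∧ (z = pt K x y c ∨ z = pt K x y d) := by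
  obtain ⟨e1, e2, e3, e4⟩ := seg' hK h1 hz1
  obtain ⟨g1, g2, g3, g4⟩ := seg' hK h2 hz2
  have hc0 := hpos hK (y c)
  rcases lt_trichotomy (y b) (y c) with h4 | h4 | h4
  · have h5 := hlt hK h4
    exact absurd (lt_of_le_of_lt e2 (lt_of_lt_of_le h5 g1)) (lt_irrefl _)
  · have hbc : b = c := hy h4
    subst hbc
    have hz : z.2 = (K : ℝ) ^ y b := le_antisymm e2 g1
    rw [hz, sub_self, mul_zero] at g3
    have h5 := hlt hK h2
    have h6 : z.1 - x b = 0 := by
      rcases mul_eq_zero.1 g3 with h | h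
      · exact h
      · exact absurd h (by linarith)
    have h7 : z = pt K x y b := Prod.ext (by
      show z.1 = (x b : ℝ)
      linarith) hz
    exact ⟨Or.inr h7, Or.inl h7⟩
  · have hlow := slow (W := (W : ℝ)) (Nat.cast_nonneg _) (kW hK) (xd hW d c) hc0 g1 e2 (hstep hK h3) g3
    by_cases hac : a = c
    · subst hac
      by_cases hz : z.2 = (K : ℝ) ^ y a
      · rw [hz, sub_self, mul_zero] at g3
        have h5 := hlt hK h2
        have h6 : z.1 - x a = 0 := by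
          rcases mul_eq_zero.1 g3 with h | h
          · exact h
          · exact absurd h (by linarith)
        have h7 : z = pt K x y a := Prod.ext (by
          show z.1 = (x a : ℝ)
          linarith) hz
        exact ⟨Or.inl h7, Or.inl h7⟩
      · exfalso
        have hz0 : z.2 - (K : ℝ) ^ y a ≠ 0 := sub_ne_zero.2 hz
        have h5 : (((x b : ℝ) - x a) * ((K : ℝ) ^ y d - (K : ℝ) ^ y a)) * (z.2 - (K : ℝ) ^ y a) =
            (((x d : ℝ) - x a) * ((K : ℝ) ^ y b - (K : ℝ) ^ y a)) * (z.2 - (K : ℝ) ^ y a) := by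
          calc _ = (((x b : ℝ) - x a) * (z.2 - (K : ℝ) ^ y a)) * ((K : ℝ) ^ y d - (K : ℝ) ^ y a) := by
                ring
            _ = ((z.1 - x a) * ((K : ℝ) ^ y b - (K : ℝ) ^ y a)) * ((K : ℝ) ^ y d - (K : ℝ) ^ y a) := by
                rw [e3]
            _ = ((z.1 - x a) * ((K : ℝ) ^ y d - (K : ℝ) ^ y a)) * ((K : ℝ) ^ y b - (K : ℝ) ^ y a) := by
                ring
            _ = _ := by
                rw [g3]
                ring
        have h6 := mul_right_cancel₀ hz0 h5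
        have hba : b ≠ a := by
          rintro rfl
          exact lt_irrefl _ h1
        have h7 := slow (W := (W : ℝ)) (z1 := (x b : ℝ)) (z2 := (K : ℝ) ^ y b) (Nat.cast_nonneg _)
          (kW hK) (xd hW d a) hc0 (hlt hK h1).le le_rfl (hstep hK h3) h6
        exact absurd (xne hx hba) (not_le.2 h7)
    · exfalso
      have hbc : b ≠ c := by
        rintro rfl
        exact lt_irrefl _ h4
      have h5 := hN a b c d hab hcd h1 h4 h3
      have hxac : x a ≠ x c := fun h => hac (hx h)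
      have hxbc : x b ≠ x c := fun h => hbc (hx h)
      rw [abs_lt] at hlow
      have h6 : (x c < x a ∧ x c < x b) ∨ (x a < x c ∧ x b < x c) := by
        by_cases h7 : x c < x a
        · by_cases h8 : x c < x b
          · exact Or.inl ⟨h7, h8⟩
          · exact absurd ⟨lt_of_le_of_ne (not_lt.1 h8) hxbc, h7⟩ h5.2
        · have h7' : x a < x c := lt_of_le_of_ne (not_lt.1 h7) hxac
          by_cases h8 : x c < x b
          · exact absurd ⟨h7', h8⟩ h5.1
          · exact Or.inr ⟨h7', lt_of_le_of_ne (not_lt.1 h8) hxbc⟩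
      rcases h6 with ⟨h7, h8⟩ | ⟨h7, h8⟩
      · have h9 : (x c : ℝ) + 1 ≤ x a := by exact_mod_cast h7
        have h10 : (x c : ℝ) + 1 ≤ x b := by exact_mod_cast h8
        nlinarith
      · have h9 : (x a : ℝ) + 1 ≤ x c := by exact_mod_cast h7
        have h10 : (x b : ℝ) + 1 ≤ x c := by exact_mod_cast h8
        nlinarith

/-- common top -/
theorem tops (hx : Function.Injective x) (hW : ∀ v, x v ≤ W) (hK : 8 * (W + 1) ≤ K)
    {a c b : V} (h1 : y a < y c) (h2 : y c < y b) {z : ℝ × ℝ}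
    (hz1 : z ∈ segment ℝ (pt K x y a) (pt K x y b))
    (hz2 : z ∈ segment ℝ (pt K x y c) (pt K x y b)) : z = pt K x y b := by
  obtain ⟨e1, e2, e3, e4⟩ := seg' hK (h1.trans h2) hz1
  obtain ⟨g1, g2, g3, g4⟩ := seg' hK h2 hz2
  have ha0 := hpos hK (y a)
  have hc0 := hpos hK (y c)
  have hac := hlt hK h1
  have hcb := hlt hK h2
  have hstp := hstep hK h2
  by_cases hz : z.2 = (K : ℝ) ^ y b
  · rw [hz] at g3
    have h5 : (z.1 - x b) * ((K : ℝ) ^ y b - (K : ℝ) ^ y c) = 0 := by linarith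
    have h6 : z.1 - x b = 0 := by
      rcases mul_eq_zero.1 h5 with h | h
      · exact h
      · exact absurd h (by linarith)
    exact Prod.ext (by
      show z.1 = (x b : ℝ)
      linarith) hz
  · exfalso
    have hz0 : (K : ℝ) ^ y b - z.2 ≠ 0 := sub_ne_zero.2 (Ne.symm hz)
    have e5 : ((x b : ℝ) - z.1) * ((K : ℝ) ^ y b - (K : ℝ) ^ y a) =
        ((x b : ℝ) - x a) * ((K : ℝ) ^ y b - z.2) := by linarith
    have g5 : ((x b : ℝ) - z.1) * ((K : ℝ) ^ y b - (K : ℝ) ^ y c) =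
        ((x b : ℝ) - x c) * ((K : ℝ) ^ y b - z.2) := by linarith
    have h5 : (((x b : ℝ) - x a) * ((K : ℝ) ^ y b - (K : ℝ) ^ y c)) * ((K : ℝ) ^ y b - z.2) =
        (((x b : ℝ) - x c) * ((K : ℝ) ^ y b - (K : ℝ) ^ y a)) * ((K : ℝ) ^ y b - z.2) := by
      calc _ = (((x b : ℝ) - x a) * ((K : ℝ) ^ y b - z.2)) * ((K : ℝ) ^ y b - (K : ℝ) ^ y c) := by
            ring
        _ = (((x b : ℝ) - z.1) * ((K : ℝ) ^ y b - (K : ℝ) ^ y a)) *
              ((K : ℝ) ^ y b - (K : ℝ) ^ y c) := by rw [e5]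
        _ = (((x b : ℝ) - z.1) * ((K : ℝ) ^ y b - (K : ℝ) ^ y c)) *
              ((K : ℝ) ^ y b - (K : ℝ) ^ y a) := by ring
        _ = _ := by
            rw [g5]
            ring
    have h6 := mul_right_cancel₀ hz0 h5
    have h7 : (K : ℝ) ^ y b * ((x a : ℝ) - x c) =
        ((x b : ℝ) - x c) * (K : ℝ) ^ y a - ((x b : ℝ) - x a) * (K : ℝ) ^ y c := by linarith
    have hne : a ≠ c := by
      rintro rfl
      exact lt_irrefl _ h1
    have h8 := xne hx hne
    have h9 : |(K : ℝ) ^ y b * ((x a : ℝ) - x c)| ≤ 2 * W * (K : ℝ) ^ y c := by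
      rw [h7]
      calc _ ≤ |((x b : ℝ) - x c) * (K : ℝ) ^ y a| + |((x b : ℝ) - x a) * (K : ℝ) ^ y c| :=
            abs_sub _ _
        _ = |((x b : ℝ) - x c)| * (K : ℝ) ^ y a + |((x b : ℝ) - x a)| * (K : ℝ) ^ y c := by
            rw [abs_mul, abs_mul, abs_of_pos ha0, abs_of_pos hc0]
        _ ≤ W * (K : ℝ) ^ y c + W * (K : ℝ) ^ y c :=
            add_le_add (mul_le_mul (xd hW b c) hac.le ha0.le (Nat.cast_nonneg _))
              (mul_le_mul_of_nonneg_right (xd hW b a) hc0.le)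
        _ = _ := by ring
    rw [abs_mul, abs_of_pos (hpos hK (y b))] at h9
    have h10 : (K : ℝ) ^ y b ≤ (K : ℝ) ^ y b * |(x a : ℝ) - x c| :=
      le_mul_of_one_le_right (hpos hK _).le h8
    have h11 := kW hK
    have h12 : (0 : ℝ) ≤ W := Nat.cast_nonneg _
    nlinarith

theorem vert1 (hx : Function.Injective x) (hy : Function.Injective y) (hW : ∀ v, x v ≤ W)
    (hK : 8 * (W + 1) ≤ K) {v a b : V} (h1 : y a < y b)
    (hv : pt K x y v ∈ segment ℝ (pt K x y a) (pt K x y b)) : v = a ∨ v = b := by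
  by_contra hcon
  rw [not_or] at hcon
  obtain ⟨e1, e2, e3, e4⟩ := seg' hK h1 hv
  have e1' : (K : ℝ) ^ y a ≤ (K : ℝ) ^ y v := e1
  have e2' : (K : ℝ) ^ y v ≤ (K : ℝ) ^ y b := e2
  have h2 : y v < y b := by
    rcases lt_trichotomy (y v) (y b) with h | h | h
    · exact h
    · exact absurd (hy h) hcon.2
    · exact absurd (hlt hK h) (not_lt.2 e2')
  have h3 := slow (W := (W : ℝ)) (Nat.cast_nonneg _) (kW hK) (xd hW b a) (hpos hK (y a)) e1 le_rfl
    (hstep hK h2) e3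
  exact absurd (xne hx hcon.1) (not_le.2 h3)

end

theorem exp : Pool.Agent.SGE.ExpStmt := by
  intro V G K W x y hx hy hW hK hN
  have hlow : ∀ a b : V, G.Adj a b → y a < y b ∨ y b < y a := fun a b hab =>
    lt_or_gt_of_ne fun h => hab.ne (hy h)
  have key : ∀ a b c d : V, G.Adj a b → G.Adj c d → s(a, b) ≠ s(c, d) →
      y a < y b → y c < y d → ∀ z, z ∈ segment ℝ (pt K x y a) (pt K x y b) →
      z ∈ segment ℝ (pt K x y c) (pt K x y d) →
      (z = pt K x y a ∨ z = pt K x y b) ∧ (z = pt K x y c ∨ z = pt K x y d) := by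
    intro a b c d hab hcd hne h1 h2 z hz1 hz2
    rcases lt_trichotomy (y b) (y d) with h3 | h3 | h3
    · exact pairs G hx hy hW hK hN hab hcd h1 h2 h3 hz1 hz2
    · have hbd : b = d := hy h3
      subst hbd
      rcases lt_trichotomy (y a) (y c) with h4 | h4 | h4
      · have h5 := tops hx hW hK h4 h2 hz1 hz2
        exact ⟨Or.inr h5, Or.inr h5⟩
      · exact absurd (by rw [hy h4]) hne
      · have h5 := tops hx hW hK h4 h1 hz2 hz1
        exact ⟨Or.inr h5, Or.inr h5⟩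
    · exact (pairs G hx hy hW hK hN hcd hab h2 h1 h3 hz2 hz1).symm
  have key2 : ∀ a b c d : V, G.Adj a b → G.Adj c d → s(a, b) ≠ s(c, d) →
      y a < y b → ∀ z, z ∈ segment ℝ (pt K x y a) (pt K x y b) →
      z ∈ segment ℝ (pt K x y c) (pt K x y d) →
      (z = pt K x y a ∨ z = pt K x y b) ∧ (z = pt K x y c ∨ z = pt K x y d) := by
    intro a b c d hab hcd hne h1 z hz1 hz2
    rcases hlow c d hcd with h2 | h2
    · exact key a b c d hab hcd hne h1 h2 z hz1 hz2
    · have h3 := key a b d c hab hcd.symm (by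
        intro h
        exact hne (h.trans Sym2.eq_swap)) h1 h2 z hz1 (by rw [segment_symm]; exact hz2)
      exact ⟨h3.1, h3.2.symm⟩
  refine ⟨?_, ?_, ?_⟩
  · intro u v h
    have h1 : (x u : ℝ) = x v := congrArg Prod.fst h
    exact hx (by exact_mod_cast h1)
  · intro a b c d hab hcd hne z hz
    have h3 : (z = pt K x y a ∨ z = pt K x y b) ∧ (z = pt K x y c ∨ z = pt K x y d) := by
      rcases hlow a b hab with h2 | h2
      · exact key2 a b c d hab hcd hne h2 z hz.1 hz.2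
      · have h3 := key2 b a c d hab.symm hcd (by
          intro h
          exact hne (Sym2.eq_swap.trans h)) h2 z (by rw [segment_symm]; exact hz.1) hz.2
        exact ⟨h3.1.symm, h3.2⟩
    exact h3
  · intro v a b hab hv
    rcases hlow a b hab with h2 | h2
    · exact vert1 hx hy hW hK h2 hv
    · exact (vert1 hx hy hW hK h2 (by rw [segment_symm]; exact hv)).symm

end Pool.Agent.SGE.H56
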